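import Pool.Agent.H10.UKNon

/-! MP_49092c_al, Q1: the answer is no.  Over every field `K` the algebra
`R = K[x,y,z,t]/(z^2,t^2)` is universally Koszul, but the product of the two ideals
`(x,y)` and `(x-t,y-z)`, both generated in degree one, has no linear resolution over `R`. -/

set_option autoImplicit false

open MvPolynomial Pool.Agent.H10.UK

namespace Pool.Agent.Results.MP_49092c_al.NotLinear

/-- For every field `K` there is a universally Koszul standard graded `K`-algebra `R = S/J`,
`S = K[X 0, X 1, X 2, X 3]`, namely `J = (X 2 ^ 2, X 3 ^ 2)`, and there are ideals `I₁, I₂` of `R`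
generated in degree one with `I₁ * I₂ ≠ 0` such that `I₁ * I₂` has no `2`-linear resolution
over `R`, that is, `reg_R (I₁ * I₂) > 2`. -/
theorem result (K : Type*) [Field K] :
    ∃ J : Ideal (MvPolynomial (Fin 4) K),
      J = Ideal.span {X 2 ^ 2, X 3 ^ 2} ∧
      (∀ p ∈ J, ∀ i : ℕ, homogeneousComponent i p ∈ J) ∧
      J ≤ Ideal.span (Set.range X) ^ 2 ∧
      UniversallyKoszul J ∧
      ∃ I₁ I₂ : Ideal (MvPolynomial (Fin 4) K ⧸ J),
        I₁ = Ideal.span {Ideal.Quotient.mk J (X 0), Ideal.Quotient.mk J (X 1)} ∧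
        I₂ = Ideal.span {Ideal.Quotient.mk J (X 0 - X 3), Ideal.Quotient.mk J (X 1 - X 2)} ∧
        GenByLinear J I₁ ∧ GenByLinear J I₂ ∧ I₁ * I₂ ≠ ⊥ ∧
        ¬ HasLinearResolution J 2 (I₁ * I₂) :=
  main K

end Pool.Agent.Results.MP_49092c_al.NotLinear
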